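import Pool.Agent.GJ.D.Plc
import Pool.Agent.GJ.N.Norm
import Pool.Agent.GJ.N.Glue
import Pool.Agent.GJ.N.Reps
import Pool.Agent.GJ.R.NmC

/-!
# GJ/D-D1z: a character of `ker a ⊓ ker b` with a good norm (paper D1)

`A = kr H a`, `K4 = A ⊓ kr H b`, `τa ∈ kr H b` outside `A`, `τb ∈ A` outside `kr H b`.  Let `R k` be representatives of the critical places of `H` (`exists_reps`).  At `R = R k`: `a` is nontrivial at `R` (good), so `R.D ⊓ H` is not in `A`: `norm_nt` for `(H, A, τa, R)`: a character `ζ_k` of `A` with `NtAt H R (nm A τa ζ_k)`.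
On `R.D ⊓ H` we have `a = b` (`he`), so `R.D ⊓ A = R.D ⊓ K4`; hence `R` splits in `K4 < A`: `not_peq_mv` (for `K4 ≤ A`, `τb ∈ A`, `τb ∉ K4`): `R k` and `(R k).mv τb` are not equivalent for `K4`.  `glue` for `K4` and the family indexed by `κ × Bool`: `(R k, ζ_k)` and `((R k).mv τb, 1)`
(inequivalent for different `k`: `peq_mono`, `peq_mv`, `PEq.trans`).  Result `ζ` (on `K4`).  Let `ζa = nm K4 τb ζ`, a character of `A` (`nm_chr`).  On `R.D ⊓ A`: `nm_split` (for `K4 ≤ A`): `ζa h = ζ h * ζ (τb h τb⁻¹) = ζ_k h * 1` (`mem_mv`).  So `EqAt A R ζa ζ_k`, and by `nm_nonsplit` `EqAt H R (nm A τa ζa) (nm A τa ζ_k)`: nontrivial at `R`,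
so at all critical places (`ntAt_congr`, `nm_chr`).
-/

namespace Pool.Agent.GJ

open MulAction Pool.Agent.H73.DU Pool.Agent.H73.AL Pool.Agent.LD Pool.Agent.TS

private theorem D1z_one {H : Subgroup GQ} (hH : IsOpen (H : Set GQ)) :
    IsChr H (1 : GQ → ℤˣ) := by
  have hm : Mulp H (1 : GQ → ℤˣ) := fun a _ b _ => by
    rw [Pi.one_apply, Pi.one_apply, Pi.one_apply, mul_one]
  refine ⟨hm, ?_⟩
  have h1 : kr H (1 : GQ → ℤˣ) = H := by
    ext g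
    rw [mem_kr hm]
    exact ⟨fun h => h.1, fun h => ⟨h, rfl⟩⟩
  rw [h1]
  exact hH

theorem d1_zeta {V T : Finset ℕ} (hTp : ∀ p ∈ T, p.Prime) (h2 : 2 ∈ T) {i : ℕ}
    {H : Subgroup GQ} (hH : Ci V T i H) {a b : GQ → ℤˣ} (ha : GT V T i H a) (hb : GT V T i H b)
    (he : ∀ Q : Pl, Pin V T Q → Crit i H Q → EqAt H Q a b) {τa τb : GQ} (h1 : τa ∈ H)
    (h3 : a τa = -1) (h4 : b τa = 1) (h5 : τb ∈ H) (h6 : a τb = 1) (h7 : b τb = -1) :
    ∃ ζ : GQ → ℤˣ, IsChr (kr H a ⊓ kr H b) ζ ∧ TTr T (kr H a ⊓ kr H b) ζ ∧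
      Good V T i H (nm (kr H a) τa (nm (kr H a ⊓ kr H b) τb ζ)) := by
  classical
  have hne : (-1 : ℤˣ) ≠ 1 := by decide
  have hAH : kr H a ≤ H := kr_le H a
  have hAo : IsOpen (kr H a : Set GQ) := ha.chr.2
  have hKA : kr H a ⊓ kr H b ≤ kr H a := inf_le_left
  have hKo : IsOpen ((kr H a ⊓ kr H b : Subgroup GQ) : Set GQ) := by
    rw [Subgroup.coe_inf]
    exact ha.chr.2.inter hb.chr.2
  have hτa : τa ∉ kr H a := fun h => hne (h3 ▸ ((mem_kr ha.chr.1).1 h).2)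
  have hτbA : τb ∈ kr H a := (mem_kr ha.chr.1).2 ⟨h5, h6⟩
  have hτbK : τb ∉ kr H a ⊓ kr H b := fun h => hne (h7 ▸ ((mem_kr hb.chr.1).1 h.2).2)
  have hiA : (kr H a).relIndex H = 2 :=
    kr_index ha.chr.1 fun h => hne (h3 ▸ h τa h1)
  have hiK : (kr H a ⊓ kr H b).relIndex (kr H a) = 2 := by
    rw [← kr_mono hb.chr.1 hAH]
    exact kr_index (hb.chr.1.mono hAH) fun h => hne (h7 ▸ h τb hτbA)
  obtain ⟨κ, hκ, R, hR1, hR2, hR3⟩ := exists_reps V T hH.1 (fun P => Crit i H P)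
  have hns : ∀ k, ¬ (R k).D ⊓ H ≤ kr H a := by
    intro k hk
    obtain ⟨h, hh1, hh2, hh3⟩ := ha.good (R k) (hR1 k).1 (hR1 k).2
    exact hh3 ((mem_kr ha.chr.1).1 (hk ⟨hh1, hh2⟩)).2
  have hsp : ∀ k, (R k).D ⊓ kr H a ≤ kr H a ⊓ kr H b := by
    rintro k h ⟨hh1, hh2⟩
    have hh3 := (mem_kr ha.chr.1).1 hh2
    have hh4 := he (R k) (hR1 k).1 (hR1 k).2 h hh1 hh3.1
    exact ⟨hh2, (mem_kr hb.chr.1).2 ⟨hh3.1, by rw [← hh4, hh3.2]⟩⟩
  choose Z hZ1 hZ2 using fun k => norm_nt h2 hH.1 hAo hAH hiA h1 hτa (hR1 k).1 (hns k)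
  let Pf : κ × Bool → Pl := fun x => if x.2 then (R x.1).mv τb else R x.1
  let χf : κ × Bool → GQ → ℤˣ := fun x => if x.2 then 1 else Z x.1
  have hPf : ∀ x, PEq H (R x.1) (Pf x) := by
    rintro ⟨k, x⟩
    cases x
    · exact PEq.refl H (R k)
    · exact peq_mv h5
  have hPp : ∀ x, Pin V T (Pf x) := fun x => Pin.congr (hPf x) (hR1 x.1).1
  have hPne : ∀ x y, x ≠ y → ¬ PEq (kr H a ⊓ kr H b) (Pf x) (Pf y) := by
    intro x y hxy h
    by_cases hk : x.1 = y.1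
    · obtain ⟨k, x⟩ := x
      obtain ⟨l, y⟩ := y
      obtain rfl : k = l := hk
      have hmv := not_peq_mv (H := kr H a) (P := R k) hKA hτbA hτbK (hsp k)
      cases x
      · cases y
        · exact hxy rfl
        · exact hmv h
      · cases y
        · exact hmv h.symm
        · exact hxy rfl
    · exact hR2 x.1 y.1 hk
        (((hPf x).trans (peq_mono (hKA.trans hAH) h)).trans (hPf y).symm)
  have hχf : ∀ x, IsChr (kr H a ⊓ kr H b) (χf x) := by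
    rintro ⟨k, x⟩
    cases x
    · exact (hZ1 k).mono hKA hKo
    · exact D1z_one hKo
  obtain ⟨ζ, hζ1, hζ2, -, hζ4⟩ := glue hTp h2 hKo Pf hPp hPne χf hχf
  refine ⟨ζ, hζ1, hζ2, ?_⟩
  have hζa : IsChr (kr H a) (nm (kr H a ⊓ kr H b) τb ζ) := nm_chr hKo hKA hiK hτbA hτbK hζ1
  intro Q hQ hQc
  obtain ⟨k, hk⟩ := hR3 Q hQ hQc
  rw [← ntAt_congr hk (nm_chr hAo hAH hiA h1 hτa hζa).1]
  refine EqAt.nt (EqAt.symm ?_) (hZ2 k)
  refine nm_nonsplit hAH hiA h1 hτa hζa.1 (hZ1 k).1 (hns k) ?_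
  intro h hh1 hh2
  have hhK : h ∈ kr H a ⊓ kr H b := hsp k ⟨hh1, hh2⟩
  have e1 : ζ h = Z k h := hζ4 (k, false) h hh1 hhK
  have e2 : ζ (τb * h * τb⁻¹) = 1 := by
    have e3 : τb * h * τb⁻¹ ∈ ((R k).mv τb).D := by
      rw [mem_mv]
      have : τb⁻¹ * (τb * h * τb⁻¹) * τb = h := by group
      rwa [this]
    have e4 : τb * h * τb⁻¹ ∈ kr H a ⊓ kr H b := by
      have hhH : h ∈ H := hAH hh2
      have e5 : τb * h * τb⁻¹ ∈ H := H.mul_mem (H.mul_mem h5 hhH) (H.inv_mem h5)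
      refine ⟨(mem_kr ha.chr.1).2 ⟨e5, ?_⟩, (mem_kr hb.chr.1).2 ⟨e5, ?_⟩⟩
      · rw [ha.chr.1.conj h5 hhH]
        exact ((mem_kr ha.chr.1).1 hhK.1).2
      · rw [hb.chr.1.conj h5 hhH]
        exact ((mem_kr hb.chr.1).1 hhK.2).2
    exact hζ4 (k, true) _ e3 e4
  rw [nm_split (H := kr H a) (hsp k) h hh1 hh2, e1, e2, mul_one]

end Pool.Agent.GJ
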