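import Pool.Agent.GJ.D.Mem
import Pool.Agent.GJ.D.D1z
import Pool.Agent.GJ.R.D4
import Pool.Agent.GJ.R.NmC
import Pool.Agent.GJ.N.Norm

/-!
# GJ/D-D1: only the classes at the critical places matter (paper D1)

If two good characters `χ`, `χ'` of `H` agree at the critical places and are different, a character `ζ`
of the intersection of the kernels has a good norm to `H` (`d1_zeta`), which can be computed through
both kernels (`nm_comm`); so both kernels are congruent to the double cover of this norm (`norm_mem`).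
-/

namespace Pool.Agent.GJ

open MulAction Pool.Agent.H73.DU Pool.Agent.H73.AL Pool.Agent.LD Pool.Agent.TS

private theorem D1_not_tr {H : Subgroup GQ} {P : Pl} {χ : GQ → ℤˣ} (h : NtAt H P χ) :
    ¬ Tr H χ := by
  obtain ⟨g, _, hg, h1⟩ := h
  exact fun h2 => h1 (h2 g hg)

private theorem D1_elts {G : Type} [Group G] {H : Subgroup G} {χ χ' : G → ℤˣ} (hχ : Mulp H χ)
    (hχ' : Mulp H χ') (h1 : ¬ Tr H χ) (h2 : ¬ Tr H χ') (hd : ¬ ∀ g ∈ H, χ g = χ' g) :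
    (∃ τa ∈ H, χ τa = -1 ∧ χ' τa = 1) ∧ (∃ τb ∈ H, χ τb = 1 ∧ χ' τb = -1) := by
  unfold Tr at h1 h2
  push Not at h1 h2 hd
  obtain ⟨g, hg, hg1⟩ := h1
  obtain ⟨g', hg', hg1'⟩ := h2
  obtain ⟨g0, hg0, hd⟩ := hd
  have hg2 := units_ne hg1
  have hg2' := units_ne hg1'
  rcases Int.units_eq_one_or (χ g0) with h3 | h3
  · have h4 : χ' g0 = -1 := units_ne fun h => hd (by rw [h3, h])
    refine ⟨?_, g0, hg0, h3, h4⟩
    rcases Int.units_eq_one_or (χ' g) with h5 | h5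
    · exact ⟨g, hg, hg2, h5⟩
    · refine ⟨g * g0, H.mul_mem hg hg0, ?_, ?_⟩
      · rw [hχ g hg g0 hg0, hg2, h3, mul_one]
      · rw [hχ' g hg g0 hg0, h5, h4]
        decide
  · have h4 : χ' g0 = 1 := by
      rcases Int.units_eq_one_or (χ' g0) with h | h
      · exact h
      · exact absurd (h3.trans h.symm) hd
    refine ⟨⟨g0, hg0, h3, h4⟩, ?_⟩
    rcases Int.units_eq_one_or (χ g') with h5 | h5
    · exact ⟨g', hg', h5, hg2'⟩
    · refine ⟨g' * g0, H.mul_mem hg' hg0, ?_, ?_⟩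
      · rw [hχ g' hg' g0 hg0, h5, h3]
        decide
      · rw [hχ' g' hg' g0 hg0, hg2', h4, mul_one]

/-- one of the two kernels -/
private theorem D1_half {V T : Finset ℕ} (hTp : ∀ p ∈ T, p.Prime) (h2 : 2 ∈ T) {i n B : ℕ}
    (hV : ∃ P : Pl, Pin V T P) {H K : Subgroup GQ} (hH : Ci V T i H) {χ : GQ → ℤˣ}
    (h : GT V T i H χ) (hχ : ¬ Tr H χ) (hK : IsOpen (K : Set GQ)) (hKA : K ≤ kr H χ)
    (hi : K.relIndex (kr H χ) = 2) {τa τb : GQ} (ha : τa ∈ H) (ha' : χ τa = -1)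
    (hb : τb ∈ kr H χ) (hb' : τb ∉ K) {ζ : GQ → ℤˣ} (hζ : IsChr K ζ) (hT : TTr T K ζ)
    (hg : Good V T i H (nm (kr H χ) τa (nm K τb ζ))) (hn1 : ¬ Tr H (nm (kr H χ) τa (nm K τb ζ)))
    (hn : n ∣ 2 * H.index) (hB : 16 * H.index ≤ B) :
    pq H χ - pq H (nm (kr H χ) τa (nm K τb ζ)) ∈ ES V T (i + 1) n B := by
  have h1 : pq H χ = pc (kr H χ) := by
    unfold pq
    rw [if_neg hχ]
  rw [h1]
  refine norm_mem hTp h2 hV hH ((good_iff hH h.chr).1 h.good) (kr_le H χ)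
    (kr_index h.chr.1 hχ) ha ?_ (nm_chr hK hKA hi hb hb' hζ) (nm_ttr hKA hi hb hb' hζ.1 hT) hg hn1
    hn (by omega)
  intro h3
  have h4 := ((mem_kr h.chr.1).1 h3).2
  rw [ha'] at h4
  exact absurd h4 (by decide)

theorem d1 {V T : Finset ℕ} (hTp : ∀ p ∈ T, p.Prime) (h2 : 2 ∈ T) {i n B : ℕ}
    (hV : ∃ P : Pl, Pin V T P) {H : Subgroup GQ} (hH : Ci V T i H) {χ χ' : GQ → ℤˣ}
    (h : GT V T i H χ) (h' : GT V T i H χ')
    (he : ∀ Q : Pl, Pin V T Q → Crit i H Q → EqAt H Q χ χ') (hn : n ∣ 2 * H.index)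
    (hB : 16 * H.index ≤ B) : pq H χ - pq H χ' ∈ ES V T (i + 1) n B := by
  by_cases hc : ∀ P : Pl, Pin V T P → ¬ Crit i H P
  · have h1 := hH.succ_of hc
    exact sub_mem (pq_mem hTp h2 hV h1 h.chr hn (by omega))
      (pq_mem hTp h2 hV h1 h'.chr hn (by omega))
  by_cases hd : ∀ g ∈ H, χ g = χ' g
  · rw [pq_congr hd, sub_self]
    exact zero_mem _
  push Not at hc
  obtain ⟨P, hP, hPc⟩ := hc
  have hχ := D1_not_tr (h.good P hP hPc)
  have hχ' := D1_not_tr (h'.good P hP hPc)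
  obtain ⟨⟨τa, ha, ha1, ha2⟩, τb, hb, hb1, hb2⟩ := D1_elts h.chr.1 h'.chr.1 hχ hχ' hd
  have hab : ¬ Tr H (χ * χ') := by
    intro h3
    have h4 := h3 τa ha
    rw [Pi.mul_apply, ha1, ha2] at h4
    exact absurd h4 (by decide)
  have hab' : ¬ Tr H (χ' * χ) := by rwa [mul_comm]
  have hi1 := (kr_inf_index h.chr.1 h'.chr.1 hχ hχ' hab).1
  have hi2 := (kr_inf_index h'.chr.1 h.chr.1 hχ' hχ hab').1
  rw [inf_comm] at hi2
  have hK : IsOpen ((kr H χ ⊓ kr H χ' : Subgroup GQ) : Set GQ) := by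
    rw [Subgroup.coe_inf]
    exact h.chr.2.inter h'.chr.2
  obtain ⟨ζ, hζ, hT, hg⟩ := d1_zeta hTp h2 hH h h' he ha ha1 ha2 hb hb1 hb2
  have hcm := nm_comm h.chr.1 h'.chr.1 ha ha1 ha2 hb hb1 hb2 hζ.1
  have hg' : Good V T i H (nm (kr H χ') τb (nm (kr H χ ⊓ kr H χ') τa ζ)) := by
    intro Q hQ hQc
    obtain ⟨x, hx1, hx2, hx3⟩ := hg Q hQ hQc
    refine ⟨x, hx1, hx2, ?_⟩
    rwa [← hcm x hx2]
  have hbA : τb ∈ kr H χ := (mem_kr h.chr.1).2 ⟨hb, hb1⟩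
  have haB : τa ∈ kr H χ' := (mem_kr h'.chr.1).2 ⟨ha, ha2⟩
  have hbK : τb ∉ kr H χ ⊓ kr H χ' := by
    intro h3
    have h4 := ((mem_kr h'.chr.1).1 h3.2).2
    rw [hb2] at h4
    exact absurd h4 (by decide)
  have haK : τa ∉ kr H χ ⊓ kr H χ' := by
    intro h3
    have h4 := ((mem_kr h.chr.1).1 h3.1).2
    rw [ha1] at h4
    exact absurd h4 (by decide)
  have k1 := D1_half hTp h2 hV hH h hχ hK inf_le_left hi1 ha ha1 hbA hbK hζ hT hg
    (D1_not_tr (hg P hP hPc)) hn hB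
  have k2 := D1_half hTp h2 hV hH h' hχ' hK inf_le_right hi2 hb hb2 haB haK hζ hT hg'
    (D1_not_tr (hg' P hP hPc)) hn hB
  rw [← pq_congr hcm] at k2
  have k3 := sub_mem k1 k2
  rwa [sub_sub_sub_cancel_right] at k3

end Pool.Agent.GJ
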