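import Pool.Agent.GJ.D.Mem

/-!
# GJ/D-D2s: one step (paper D2)

A good `T`-trivial character `a` equal to `χ * χ'` at `P` and to `χ * m` at the other critical places;
`ω = a * χ`, `ω' = a * χ'`. The relations of the two biquadratic extensions given by `(a, χ)` and
`(a, χ')` compare the two differences.
-/

namespace Pool.Agent.GJ

open MulAction Pool.Agent.H73.DU Pool.Agent.H73.AL Pool.Agent.LD Pool.Agent.TS

private theorem D2s_not_tr {H : Subgroup GQ} {P : Pl} {χ : GQ → ℤˣ} (h : NtAt H P χ) :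
    ¬ Tr H χ := by
  obtain ⟨g, _, hg, h1⟩ := h
  exact fun h2 => h1 (h2 g hg)

private theorem D2s_pq {H : Subgroup GQ} {χ : GQ → ℤˣ} (h : ¬ Tr H χ) : pq H χ = pc (kr H χ) := by
  unfold pq
  rw [if_neg h]

private theorem D2s_cancel (x y : GQ → ℤˣ) : (x * y) * x = y := by
  rw [mul_comm x y, mul_assoc, mul_self_char, mul_one]

private theorem D2s_cancel' (x y : GQ → ℤˣ) : (x * y) * y = x := by
  rw [mul_assoc, mul_self_char, mul_one]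

private theorem D2s_ttr {T : Finset ℕ} {H : Subgroup GQ} {a b : GQ → ℤˣ} (ha : TTr T H a)
    (hb : TTr T H b) : TTr T H (a * b) := by
  intro P hP h h1 h3
  rw [Pi.mul_apply, ha P hP h h1 h3, hb P hP h h1 h3, one_mul]

/-- `a * χ` is good and `T`-trivial -/
private theorem D2s_gt {V T : Finset ℕ} {i : ℕ} {H : Subgroup GQ} {P : Pl} (hP : Pin V T P)
    (hc : Crit i H P) {a χ η m : GQ → ℤˣ} (ha : GT V T i H a) (hχ : GT V T i H χ)
    (hη : GT V T i H η) (h1 : EqAt H P (a * χ) η)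
    (h2 : ∀ Q : Pl, Pin V T Q → Crit i H Q → ¬ PEq H P Q → EqAt H Q (a * χ) m)
    (hm : ∀ Q : Pl, Pin V T Q → Crit i H Q → ¬ PEq H P Q → NtAt H Q m) :
    GT V T i H (a * χ) := by
  refine ⟨ha.chr.mul hχ.chr, D2s_ttr ha.ttr hχ.ttr, fun Q hQ hcQ => ?_⟩
  by_cases hp : PEq H P Q
  · exact (ntAt_congr hp (ha.chr.mul hχ.chr).1).1 (EqAt.nt h1.symm (hη.good P hP hc))
  · exact EqAt.nt (h2 Q hQ hcQ hp).symm (hm Q hQ hcQ hp)

/-- the intersection of two kernels -/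
private theorem D2s_quad {V T : Finset ℕ} {i n B : ℕ} {H : Subgroup GQ} (hH : Ci V T i H)
    {a χ : GQ → ℤˣ} (ha : GT V T i H a) (hχ : IsChr H χ) (h1 : ¬ Tr H a) (h2 : ¬ Tr H χ)
    (h3 : ¬ Tr H (a * χ)) (hn : n ∣ 2 * H.index) (hB : 16 * H.index ≤ B) :
    pc (kr H a ⊓ kr H χ) ∈ ES V T (i + 1) n B := by
  obtain ⟨hi, hi'⟩ := kr_inf_index ha.chr.1 hχ.1 h1 h2 h3
  refine quad_mem ((good_iff hH ha.chr).1 ha.good) ?_ inf_le_left hi ?_ ?_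
  · rw [Subgroup.coe_inf]
    exact ha.chr.2.inter hχ.2
  · rw [hi']
    exact hn.trans ⟨2, by ring⟩
  · rw [hi']
    omega

theorem d2_step {V T : Finset ℕ} (hTp : ∀ p ∈ T, p.Prime) (h2 : 2 ∈ T) {i n B : ℕ}
    (hV : ∃ P : Pl, Pin V T P) {H : Subgroup GQ} (hH : Ci V T i H) {P : Pl} (hP : Pin V T P)
    (hc : Crit i H P) {χ χ' m : GQ → ℤˣ} (h : Pair V T i H P χ χ')
    (hne : NtAt H P (χ * χ')) (hm : IsChr H m)
    (hm1 : ∀ Q : Pl, Pin V T Q → Crit i H Q → ¬ PEq H P Q → NtAt H Q m ∧ NtAt H Q (m * χ))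
    (hn : n ∣ 2 * H.index) (hB : 16 * H.index ≤ B) :
    ∃ ω ω' : GQ → ℤˣ, Pair V T i H P ω ω' ∧ EqAt H P ω χ' ∧ EqAt H P ω' χ ∧
      (∀ Q : Pl, Pin V T Q → Crit i H Q → ¬ PEq H P Q → EqAt H Q ω m) ∧
      (pq H χ - pq H χ') - (pq H ω - pq H ω') ∈ ES V T (i + 1) n B := by
  obtain ⟨a, ha, ha1, ha2⟩ := exists_mod hTp h2 hH hP (h.l.chr.mul h.r.chr) (h.l.chr.mul hm)
    (fun _ => hne) (fun Q hQ hcQ hpQ => by
      rw [mul_comm]
      exact (hm1 Q hQ hcQ hpQ).2)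
  have e1 : EqAt H P (a * χ) χ' := by
    have h3 := EqAt.mul ha1 (fun x _ _ => rfl : EqAt H P χ χ)
    rwa [D2s_cancel] at h3
  have e2 : EqAt H P (a * χ') χ := by
    have h3 := EqAt.mul ha1 (fun x _ _ => rfl : EqAt H P χ' χ')
    rwa [D2s_cancel'] at h3
  have f1 : ∀ Q : Pl, Pin V T Q → Crit i H Q → ¬ PEq H P Q → EqAt H Q (a * χ) m := by
    intro Q hQ hcQ hpQ
    have h3 := EqAt.mul (ha2 Q hQ hcQ hpQ) (fun x _ _ => rfl : EqAt H Q χ χ)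
    rwa [D2s_cancel] at h3
  have f2 : ∀ Q : Pl, Pin V T Q → Crit i H Q → ¬ PEq H P Q → EqAt H Q (a * χ') m := by
    intro Q hQ hcQ hpQ
    have h3 := EqAt.mul (ha2 Q hQ hcQ hpQ) (h.eq Q hQ hcQ hpQ).symm
    rwa [D2s_cancel] at h3
  have g1 : GT V T i H (a * χ) :=
    D2s_gt hP hc ha h.l h.r e1 f1 fun Q hQ hcQ hpQ => (hm1 Q hQ hcQ hpQ).1
  have g2 : GT V T i H (a * χ') :=
    D2s_gt hP hc ha h.r h.l e2 f2 fun Q hQ hcQ hpQ => (hm1 Q hQ hcQ hpQ).1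
  refine ⟨a * χ, a * χ', ⟨g1, g2, fun Q hQ hcQ hpQ =>
    (f1 Q hQ hcQ hpQ).trans (f2 Q hQ hcQ hpQ).symm⟩, e1, e2, f1, ?_⟩
  have ta : ¬ Tr H a := D2s_not_tr (EqAt.nt ha1.symm hne)
  have tχ : ¬ Tr H χ := D2s_not_tr (h.l.good P hP hc)
  have tχ' : ¬ Tr H χ' := D2s_not_tr (h.r.good P hP hc)
  have tω : ¬ Tr H (a * χ) := D2s_not_tr (g1.good P hP hc)
  have tω' : ¬ Tr H (a * χ') := D2s_not_tr (g2.good P hP hc)
  have q1 := D2s_quad hH ha h.l.chr ta tχ tω hn hB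
  have q2 := D2s_quad hH ha h.r.chr ta tχ' tω' hn hB
  have k1 : (pq H χ + pq H (a * χ)) - (pq H χ' + pq H (a * χ')) ∈ ES V T (i + 1) n B := by
    refine mem_congr (g := pc (kr H a ⊓ kr H χ) - pc (kr H a ⊓ kr H χ')) ?_
      (AddSubgroup.sub_mem _ q1 q2)
    intro U hU
    have v1 := v4 hH.1 ha.chr h.l.chr ta tχ tω ha.ttr h.l.ttr U hU
    have v2 := v4 hH.1 ha.chr h.r.chr ta tχ' tω' ha.ttr h.r.ttr U hU
    rw [D2s_pq tχ, D2s_pq tχ', D2s_pq tω, D2s_pq tω']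
    rw [Pi.sub_apply, Pi.add_apply, Pi.add_apply, Pi.sub_apply]
    linarith only [v1, v2]
  have t1 := pq_two hTp h2 hV hH g1 (le_refl H) hH.1 hn (by omega : 4 * H.index ≤ B)
  have t2 := pq_two hTp h2 hV hH g2 (le_refl H) hH.1 hn (by omega : 4 * H.index ≤ B)
  have h4 : (pq H χ - pq H χ') - (pq H (a * χ) - pq H (a * χ')) =
      ((pq H χ + pq H (a * χ)) - (pq H χ' + pq H (a * χ'))) +
        ((2 : ℤ) • pq H (a * χ') - (2 : ℤ) • pq H (a * χ)) := by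
    rw [two_smul, two_smul]
    abel
  rw [h4]
  exact AddSubgroup.add_mem _ k1 (AddSubgroup.sub_mem _ t2 t1)

end Pool.Agent.GJ
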