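import Pool.Agent.GJ.D.Mem
import Pool.Agent.GJ.N.Norm

/-!
# GJ/D-D3z: characters for the split step (paper D3)

`τ ∈ H` outside `H'`. `z1`, `z2` are glued from: `η` resp. `η'` at `P`, the conjugate of `η * η'` at the conjugate place `P.mv τ`; for the
representatives `R k` of the other critical places of `H`: two different nontrivial classes at `R k` and `(R k).mv τ` if `R k` is split, and
a character whose norm is nontrivial at `R k` (`norm_nt`) if it is not.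
-/

namespace Pool.Agent.GJ

open MulAction Pool.Agent.H73.DU Pool.Agent.H73.AL Pool.Agent.LD Pool.Agent.TS

private theorem D3z_mem {H H' : Subgroup GQ} (hi : H'.relIndex H = 2) {a b : GQ} (ha : a ∈ H)
    (hb : b ∈ H) : a * b ∈ H' ↔ (a ∈ H' ↔ b ∈ H') := by
  have h1 := Subgroup.mul_mem_iff_of_index_two (H := H'.subgroupOf H) hi (a := ⟨a, ha⟩)
    (b := ⟨b, hb⟩)
  simpa only [Subgroup.mem_subgroupOf, Subgroup.coe_mul] using h1

private theorem D3z_conj {H H' : Subgroup GQ} (hle : H' ≤ H) (hi : H'.relIndex H = 2) {a h : GQ}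
    (ha : a ∈ H) (hh : h ∈ H') : a * h * a⁻¹ ∈ H' := by
  rw [D3z_mem hi (H.mul_mem ha (hle hh)) (H.inv_mem ha), D3z_mem hi ha (hle hh), inv_mem_iff]
  exact ⟨fun h1 => h1.2 hh, fun h1 => ⟨fun _ => hh, fun _ => h1⟩⟩

private theorem D3z_sp {H H' : Subgroup GQ} (hle : H' ≤ H) (hi : H'.relIndex H = 2) {P Q : Pl}
    (h : PEq H P Q) (hs : Q.D ⊓ H ≤ H') : P.D ⊓ H ≤ H' := by
  obtain ⟨y, hy, h1⟩ := h.D
  rintro x ⟨hx, hxH⟩
  have h2 : y * x * y⁻¹ ∈ Q.D := by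
    rw [h1, mem_cj_conj]
    have : y⁻¹ * (y * x * y⁻¹) * y⁻¹⁻¹ = x := by group
    rw [this]
    exact hx
  have h3 : y * x * y⁻¹ ∈ H' := hs ⟨h2, H.mul_mem (H.mul_mem hy hxH) (H.inv_mem hy)⟩
  have h4 := D3z_conj hle hi (H.inv_mem hy) h3
  have : y⁻¹ * (y * x * y⁻¹) * y⁻¹⁻¹ = x := by group
  rwa [this] at h4

/-- the norm at a split place -/
private theorem D3z_nm {H H' : Subgroup GQ} (hle : H' ≤ H) (hi : H'.relIndex H = 2) {τ : GQ}
    (hτ : τ ∈ H) {P : Pl} (hs : P.D ⊓ H ≤ H') {z a b : GQ → ℤˣ} (h1 : EqAt H' P z a)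
    (h2 : EqAt H' (P.mv τ) z (cx τ b)) : ∀ h ∈ P.D, h ∈ H → nm H' τ z h = a h * b h := by
  intro h hh hhH
  have h3 : h ∈ H' := hs ⟨hh, hhH⟩
  have h4 : τ * h * τ⁻¹ ∈ (P.mv τ).D := by
    rw [mem_mv]
    have : τ⁻¹ * (τ * h * τ⁻¹) * τ = h := by group
    rw [this]
    exact hh
  rw [nm_split hs h hh hhH, h1 h hh h3, h2 _ h4 (D3z_conj hle hi hτ h3), cx_val]

theorem d3_zeta {V T : Finset ℕ} (hTp : ∀ p ∈ T, p.Prime) (h2 : 2 ∈ T) {i : ℕ}
    {H H' : Subgroup GQ} (hH : Ci V T i H)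
    (hH' : IsOpen (H' : Set GQ)) (hle : H' ≤ H) (hi : H'.relIndex H = 2) {τ : GQ} (hτ : τ ∈ H)
    (hτ' : τ ∉ H') {P : Pl} (hP : Pin V T P) (hs : P.D ⊓ H ≤ H') {η η' : GQ → ℤˣ}
    (hη : IsChr H' η) (hη' : IsChr H' η') (h1 : NtAt H' P η) (h3 : NtAt H' P η')
    (h4 : NtAt H' P (η * η')) :
    ∃ z1 z2 : GQ → ℤˣ, Pair V T i H' P z1 z2 ∧ EqAt H' P z1 η ∧ EqAt H' P z2 η' ∧
      Pair V T i H P (nm H' τ z2) (nm H' τ z1) ∧ EqAt H P (nm H' τ z2) η ∧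
      EqAt H P (nm H' τ z1) η' := by
  classical
  obtain ⟨ι, hι, R, hR, hRne, hRall⟩ := exists_reps V T hH.1 (fun Q => Crit i H Q ∧ ¬ PEq H P Q)
  have hab : ∀ k, ∃ α β : GQ → ℤˣ, IsChr H' α ∧ IsChr H' β ∧
      ((R k).D ⊓ H ≤ H' → NtAt H' (R k) α ∧ NtAt H' (R k) β ∧ NtAt H' (R k) (α * β)) ∧
      (¬ (R k).D ⊓ H ≤ H' → NtAt H (R k) (nm H' τ α)) := by
    intro k
    by_cases hk : (R k).D ⊓ H ≤ H'
    · obtain ⟨u, π, hu, hπ, h5, h6, h7, -⟩ := four h2 hH' (hR k).1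
      exact ⟨u, π, hu, hπ, fun _ => ⟨h5, h6, h7⟩, fun h => absurd hk h⟩
    · obtain ⟨ζ, hζ, hζ'⟩ := norm_nt h2 hH.1 hH' hle hi hτ hτ' (hR k).1 hk
      exact ⟨ζ, ζ, hζ, hζ, fun h => absurd h hk, fun _ => hζ'⟩
  choose α β hα hβ hsp hns using hab
  -- gluing
  have key : ∀ X : GQ → ℤˣ, IsChr H' X → ∃ z : GQ → ℤˣ, IsChr H' z ∧ TTr T H' z ∧
      EqAt H' P z X ∧ EqAt H' (P.mv τ) z (cx τ (η * η')) ∧ (∀ k, EqAt H' (R k) z (α k)) ∧
      ∀ k, (R k).D ⊓ H ≤ H' → EqAt H' ((R k).mv τ) z (cx τ (β k)) := by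
    intro X hX
    let pl : Option ι → Pl := fun o => o.elim P R
    let A : Option ι → GQ → ℤˣ := fun o => o.elim X α
    let B : Option ι → GQ → ℤˣ := fun o => o.elim (η * η') β
    have hpin : ∀ o, Pin V T (pl o) := by
      rintro (_ | k)
      · exact hP
      · exact (hR k).1
    have hpl : ∀ o o' : Option ι, o ≠ o' → ¬ PEq H (pl o) (pl o') := by
      rintro (_ | k) (_ | l) hne h
      · exact hne rfl
      · exact (hR l).2.2 h
      · exact (hR k).2.2 h.symm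
      · exact hRne k l (fun h => hne (by rw [h])) h
    have hA : ∀ o, IsChr H' (A o) := by
      rintro (_ | k)
      · exact hX
      · exact hα k
    have hB : ∀ o, IsChr H' (B o) := by
      rintro (_ | k)
      · exact hη.mul hη'
      · exact hβ k
    have hmv : ∀ (o : Option ι) (t : Bool), PEq H (pl o) (cond t ((pl o).mv τ) (pl o)) := by
      rintro o (_ | _)
      · exact PEq.refl H _
      · exact peq_mv hτ
    obtain ⟨z, hz1, hz2, -, hz3⟩ := glue hTp h2 hH'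
      (ι := {x : Option ι × Bool // x.2 = false ∨ (pl x.1).D ⊓ H ≤ H'})
      (fun x => cond x.1.2 ((pl x.1.1).mv τ) (pl x.1.1))
      (by
        rintro ⟨⟨o, (_ | _)⟩, hx⟩
        · exact hpin o
        · exact hpin o)
      (by
        rintro ⟨⟨o, t⟩, hx⟩ ⟨⟨o', t'⟩, hy⟩ hne h
        by_cases ho : o = o'
        · subst ho
          rcases t with _ | _ <;> rcases t' with _ | _
          · exact hne rfl
          · have hs' : (pl o).D ⊓ H ≤ H' := hy.resolve_left (by simp)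
            exact not_peq_mv hle hτ hτ' hs' h
          · have hs' : (pl o).D ⊓ H ≤ H' := hx.resolve_left (by simp)
            exact not_peq_mv hle hτ hτ' hs' h.symm
          · exact hne rfl
        · exact hpl o o' ho (((hmv o t).trans (peq_mono hle h)).trans (hmv o' t').symm))
      (fun x => cond x.1.2 (cx τ (B x.1.1)) (A x.1.1))
      (by
        rintro ⟨⟨o, (_ | _)⟩, hx⟩
        · exact hA o
        · exact cx_chr hle hi hτ (hB o))
    exact ⟨z, hz1, hz2, hz3 ⟨(none, false), Or.inl rfl⟩, hz3 ⟨(none, true), Or.inr hs⟩,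
      fun k => hz3 ⟨(some k, false), Or.inl rfl⟩, fun k hk => hz3 ⟨(some k, true), Or.inr hk⟩⟩
  -- a critical place of `H'`
  have hcrit : ∀ Q : Pl, Pin V T Q → Crit i H' Q → PEq H' P Q ∨ PEq H' (P.mv τ) Q ∨
      ∃ k, (R k).D ⊓ H ≤ H' ∧ (PEq H' (R k) Q ∨ PEq H' ((R k).mv τ) Q) := by
    intro Q hQ hc
    by_cases hPQ : PEq H P Q
    · rcases peq_cases hle hi hτ hτ' hPQ with h | h
      · exact Or.inl h
      · exact Or.inr (Or.inl h)
    · obtain ⟨k, hk⟩ := hRall Q hQ ⟨hc.mono hle hH', hPQ⟩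
      have hQs : Q.D ⊓ H ≤ H' := by
        by_contra hn
        exact crit_nonsplit hH hH' hle hi hQ hn hc
      exact Or.inr (Or.inr ⟨k, D3z_sp hle hi hk hQs, peq_cases hle hi hτ hτ' hk⟩)
  -- the properties of the glued characters
  have hgood' : ∀ z X : GQ → ℤˣ, IsChr H' z → EqAt H' P z X → NtAt H' P X →
      EqAt H' (P.mv τ) z (cx τ (η * η')) → (∀ k, EqAt H' (R k) z (α k)) →
      (∀ k, (R k).D ⊓ H ≤ H' → EqAt H' ((R k).mv τ) z (cx τ (β k))) → Good V T i H' z := by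
    intro z X hz e1 e2 e3 e4 e5 Q hQ hc
    rcases hcrit Q hQ hc with h | h | ⟨k, hk, h | h⟩
    · exact (ntAt_congr h hz.1).1 (e1.symm.nt e2)
    · exact (ntAt_congr h hz.1).1 (e3.symm.nt (ntAt_cx hle hi hτ h4))
    · exact (ntAt_congr h hz.1).1 ((e4 k).symm.nt (hsp k hk).1)
    · exact (ntAt_congr h hz.1).1 ((e5 k hk).symm.nt (ntAt_cx hle hi hτ (hsp k hk).2.1))
  have hgood : ∀ z Y : GQ → ℤˣ, IsChr H' z → EqAt H P (nm H' τ z) Y → NtAt H' P Y →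
      (∀ k, EqAt H' (R k) z (α k)) →
      (∀ k, (R k).D ⊓ H ≤ H' → EqAt H' ((R k).mv τ) z (cx τ (β k))) →
      Good V T i H (nm H' τ z) := by
    intro z Y hz e1 e2 e4 e5 Q hQ hc
    have hn := (nm_chr hH' hle hi hτ hτ' hz).1
    by_cases hPQ : PEq H P Q
    · refine (ntAt_congr hPQ hn).1 (e1.symm.nt ?_)
      obtain ⟨x, hx, hxH, hx1⟩ := e2
      exact ⟨x, hx, hle hxH, hx1⟩
    · obtain ⟨k, hk⟩ := hRall Q hQ ⟨hc, hPQ⟩
      refine (ntAt_congr hk hn).1 ?_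
      by_cases hks : (R k).D ⊓ H ≤ H'
      · obtain ⟨x, hx, hxH, hx1⟩ := (hsp k hks).2.2
        refine ⟨x, hx, hle hxH, ?_⟩
        rw [D3z_nm hle hi hτ hks (e4 k) (e5 k hks) x hx (hle hxH)]
        exact hx1
      · exact (nm_nonsplit hle hi hτ hτ' hz.1 (hα k).1 hks (e4 k)).symm.nt (hns k hks)
  obtain ⟨z1, a1, a2, a3, a4, a5, a6⟩ := key η hη
  obtain ⟨z2, b1, b2, b3, b4, b5, b6⟩ := key η' hη'
  have hn1 : EqAt H P (nm H' τ z1) η' := by
    intro x hx hxH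
    rw [D3z_nm hle hi hτ hs a3 a4 x hx hxH, Pi.mul_apply, ← mul_assoc, Int.units_mul_self, one_mul]
  have hn2 : EqAt H P (nm H' τ z2) η := by
    intro x hx hxH
    rw [D3z_nm hle hi hτ hs b3 b4 x hx hxH, Pi.mul_apply, mul_comm (η x), ← mul_assoc,
      Int.units_mul_self, one_mul]
  refine ⟨z1, z2, ⟨⟨a1, a2, hgood' z1 η a1 a3 h1 a4 a5 a6⟩, ⟨b1, b2, hgood' z2 η' b1 b3 h3 b4 b5 b6⟩,
    ?_⟩, a3, b3, ⟨⟨nm_chr hH' hle hi hτ hτ' b1, nm_ttr hle hi hτ hτ' b1.1 b2,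
      hgood z2 η b1 hn2 h1 b5 b6⟩, ⟨nm_chr hH' hle hi hτ hτ' a1, nm_ttr hle hi hτ hτ' a1.1 a2,
      hgood z1 η' a1 hn1 h3 a5 a6⟩, ?_⟩, hn2, hn1⟩
  · intro Q hQ hc hne
    rcases hcrit Q hQ hc with h | h | ⟨k, hk, h | h⟩
    · exact absurd h hne
    · exact (eqAt_congr h a1.1 b1.1).1 (a4.trans b4.symm)
    · exact (eqAt_congr h a1.1 b1.1).1 ((a5 k).trans (b5 k).symm)
    · exact (eqAt_congr h a1.1 b1.1).1 ((a6 k hk).trans (b6 k hk).symm)
  · intro Q hQ hc hne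
    obtain ⟨k, hk⟩ := hRall Q hQ ⟨hc, hne⟩
    refine (eqAt_congr hk (nm_chr hH' hle hi hτ hτ' b1).1 (nm_chr hH' hle hi hτ hτ' a1).1).1 ?_
    by_cases hks : (R k).D ⊓ H ≤ H'
    · intro x hx hxH
      rw [D3z_nm hle hi hτ hks (b5 k) (b6 k hks) x hx hxH,
        D3z_nm hle hi hτ hks (a5 k) (a6 k hks) x hx hxH]
    · exact nm_nonsplit hle hi hτ hτ' b1.1 a1.1 hks ((b5 k).trans (a5 k).symm)

end Pool.Agent.GJ
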