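import Pool.Agent.GJ.D.D1

/-!
# GJ/D-D4: the chain (paper D4)

For a finset `s` of indices let `ω_s` be a good `T`-trivial character which agrees with `χ'` at the `P k`, `k ∈ s`, and with
`χ` at the other critical places (`glue`, `exists_reps`). Induction over `s`: `(ω_s, ω_(s ∪ {k}))` is a pair at `P k`.
-/

namespace Pool.Agent.GJ

open MulAction Pool.Agent.H73.DU Pool.Agent.H73.AL Pool.Agent.LD Pool.Agent.TS

/-- `ω` agrees with `χ'` at the `P k`, `k ∈ s`, and with `χ` at the other critical places -/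
private structure D4W (V T : Finset ℕ) (i : ℕ) (H : Subgroup GQ) (χ χ' : GQ → ℤˣ) {ι : Type}
    (P : ι → Pl) (s : Finset ι) (ω : GQ → ℤˣ) : Prop where
  gt : GT V T i H ω
  pos : ∀ k ∈ s, EqAt H (P k) ω χ'
  neg : ∀ k, k ∉ s → EqAt H (P k) ω χ
  oth : ∀ Q : Pl, Pin V T Q → Crit i H Q → (∀ k, ¬ PEq H (P k) Q) → EqAt H Q ω χ

private theorem d4_nt {H : Subgroup GQ} {Q : Pl} {ω χ : GQ → ℤˣ} (h : EqAt H Q ω χ)
    (h1 : NtAt H Q χ) : NtAt H Q ω := by
  obtain ⟨y, hy, hyH, h2⟩ := h1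
  exact ⟨y, hy, hyH, by rwa [h y hy hyH]⟩

private theorem d4_exists {V T : Finset ℕ} (hTp : ∀ p ∈ T, p.Prime) (h2 : 2 ∈ T) {i : ℕ}
    {H : Subgroup GQ} (hH : Ci V T i H) {χ χ' : GQ → ℤˣ}
    (h : GT V T i H χ) (h' : GT V T i H χ') {ι : Type} [Fintype ι] (P : ι → Pl)
    (hP : ∀ k, Pin V T (P k)) (hne : ∀ k l, k ≠ l → ¬ PEq H (P k) (P l)) (s : Finset ι) :
    ∃ ω, D4W V T i H χ χ' P s ω := by
  classical
  obtain ⟨κ, _, R, hR, hRne, hRcov⟩ :=
    exists_reps V T hH.op (fun Q => Crit i H Q ∧ ∀ k, ¬ PEq H (P k) Q)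
  have hS : ∀ k : ι ⊕ κ, Pin V T (Sum.elim P R k) := by
    rintro (k | l)
    · exact hP k
    · exact (hR l).1
  have hSne : ∀ k l : ι ⊕ κ, k ≠ l → ¬ PEq H (Sum.elim P R k) (Sum.elim P R l) := by
    rintro (k | k) (l | l) hkl
    · exact hne k l fun h1 => hkl (congrArg Sum.inl h1)
    · exact (hR l).2.2 k
    · exact fun h1 => (hR k).2.2 l h1.symm
    · exact hRne k l fun h1 => hkl (congrArg Sum.inr h1)
  obtain ⟨ω, hω1, hω2, -, hω3⟩ := glue hTp h2 hH.op (Sum.elim P R) hS hSne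
    (Sum.elim (fun k => if k ∈ s then χ' else χ) fun _ => χ) (by
      rintro (k | l)
      · by_cases hk : k ∈ s
        · rw [Sum.elim_inl, if_pos hk]
          exact h'.chr
        · rw [Sum.elim_inl, if_neg hk]
          exact h.chr
      · exact h.chr)
  have hpos : ∀ k ∈ s, EqAt H (P k) ω χ' := by
    intro k hk
    have h1 := hω3 (Sum.inl k)
    rw [Sum.elim_inl, Sum.elim_inl, if_pos hk] at h1
    exact h1
  have hneg : ∀ k, k ∉ s → EqAt H (P k) ω χ := by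
    intro k hk
    have h1 := hω3 (Sum.inl k)
    rw [Sum.elim_inl, Sum.elim_inl, if_neg hk] at h1
    exact h1
  have hoth : ∀ Q : Pl, Pin V T Q → Crit i H Q → (∀ k, ¬ PEq H (P k) Q) → EqAt H Q ω χ := by
    intro Q hQ hc hQ'
    obtain ⟨l, hl⟩ := hRcov Q hQ ⟨hc, hQ'⟩
    exact (eqAt_congr hl hω1.1 h.chr.1).1 (hω3 (Sum.inr l))
  refine ⟨ω, ⟨hω1, hω2, ?_⟩, hpos, hneg, hoth⟩
  intro Q hQ hc
  by_cases hex : ∃ k, PEq H (P k) Q
  · obtain ⟨k, hk⟩ := hex
    have hck := (crit_congr hk).2 hc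
    refine (ntAt_congr hk hω1.1).1 ?_
    by_cases hks : k ∈ s
    · exact d4_nt (hpos k hks) (h'.good _ (hP k) hck)
    · exact d4_nt (hneg k hks) (h.good _ (hP k) hck)
  · push Not at hex
    exact d4_nt (hoth Q hQ hc hex) (h.good Q hQ hc)

private theorem d4_ind {V T : Finset ℕ} (hTp : ∀ p ∈ T, p.Prime) (h2 : 2 ∈ T) {i n B : ℕ}
    (hV : ∃ P : Pl, Pin V T P) {H : Subgroup GQ} (hH : Ci V T i H) {χ χ' : GQ → ℤˣ}
    (h : GT V T i H χ) (h' : GT V T i H χ') {ι : Type} [Fintype ι] (P : ι → Pl)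
    (hP : ∀ k, Pin V T (P k)) (hne : ∀ k l, k ≠ l → ¬ PEq H (P k) (P l))
    (f : ι → Subgroup GQ → ℤ)
    (hf : ∀ k η η', Pair V T i H (P k) η η' → EqAt H (P k) (η * η') (χ * χ') →
      (pq H η - pq H η') - f k ∈ ES V T (i + 1) n B)
    (hn : n ∣ 2 * H.index) (hB : 16 * H.index ≤ B) (s : Finset ι) :
    ∀ ω, D4W V T i H χ χ' P s ω → (pq H χ - pq H ω) - ∑ k ∈ s, f k ∈ ES V T (i + 1) n B := by
  classical
  induction s using Finset.induction_on with
  | empty =>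
    intro ω hω
    rw [Finset.sum_empty, sub_zero]
    refine d1 hTp h2 hV hH h hω.gt (fun Q hQ hc => ?_) hn hB
    have h1 : EqAt H Q ω χ := by
      by_cases hex : ∃ k, PEq H (P k) Q
      · obtain ⟨k, hk⟩ := hex
        exact (eqAt_congr hk hω.gt.chr.1 h.chr.1).1 (hω.neg k (Finset.notMem_empty k))
      · push Not at hex
        exact hω.oth Q hQ hc hex
    exact fun y hy hyH => (h1 y hy hyH).symm
  | insert k s hk ih =>
    intro ω hω
    obtain ⟨ω', hω'⟩ := d4_exists hTp h2 hH h h' P hP hne s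
    have h1 := ih ω' hω'
    have h3 : Pair V T i H (P k) ω' ω := by
      refine ⟨hω'.gt, hω.gt, fun Q hQ hc hkQ => ?_⟩
      by_cases hex : ∃ l, PEq H (P l) Q
      · obtain ⟨l, hl⟩ := hex
        have hlk : l ≠ k := by
          rintro rfl
          exact hkQ hl
        refine (eqAt_congr hl hω'.gt.chr.1 hω.gt.chr.1).1 ?_
        by_cases hls : l ∈ s
        · have h4 := hω'.pos l hls
          have h5 := hω.pos l (Finset.mem_insert_of_mem hls)
          exact fun y hy hyH => (h4 y hy hyH).trans (h5 y hy hyH).symm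
        · have h4 := hω'.neg l hls
          have h5 := hω.neg l (fun h6 => (Finset.mem_insert.1 h6).elim hlk hls)
          exact fun y hy hyH => (h4 y hy hyH).trans (h5 y hy hyH).symm
      · push Not at hex
        have h4 := hω'.oth Q hQ hc hex
        have h5 := hω.oth Q hQ hc hex
        exact fun y hy hyH => (h4 y hy hyH).trans (h5 y hy hyH).symm
    have h4 : EqAt H (P k) (ω' * ω) (χ * χ') := by
      intro y hy hyH
      rw [Pi.mul_apply, Pi.mul_apply, hω'.neg k hk y hy hyH,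
        hω.pos k (Finset.mem_insert_self k s) y hy hyH]
    have h5 := add_mem h1 (hf k ω' ω h3 h4)
    have h6 : (pq H χ - pq H ω' - ∑ x ∈ s, f x) + (pq H ω' - pq H ω - f k) =
        (pq H χ - pq H ω) - ∑ x ∈ insert k s, f x := by
      rw [Finset.sum_insert hk]
      abel
    rwa [h6] at h5

theorem chain {V T : Finset ℕ} (hTp : ∀ p ∈ T, p.Prime) (h2 : 2 ∈ T) {i n B : ℕ}
    (hV : ∃ P : Pl, Pin V T P) {H : Subgroup GQ} (hH : Ci V T i H) {χ χ' : GQ → ℤˣ}
    (h : GT V T i H χ) (h' : GT V T i H χ') {ι : Type} [Fintype ι] (P : ι → Pl)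
    (hP : ∀ k, Pin V T (P k)) (hne : ∀ k l, k ≠ l → ¬ PEq H (P k) (P l))
    (hcov : ∀ Q : Pl, Pin V T Q → Crit i H Q → (∃ k, PEq H (P k) Q) ∨ EqAt H Q χ χ')
    (f : ι → Subgroup GQ → ℤ)
    (hf : ∀ k η η', Pair V T i H (P k) η η' → EqAt H (P k) (η * η') (χ * χ') →
      (pq H η - pq H η') - f k ∈ ES V T (i + 1) n B)
    (hn : n ∣ 2 * H.index) (hB : 16 * H.index ≤ B) :
    (pq H χ - pq H χ') - ∑ k, f k ∈ ES V T (i + 1) n B := by
  refine d4_ind hTp h2 hV hH h h' P hP hne f hf hn hB Finset.univ χ' ⟨h', fun k _ => ?_,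
    fun k hk => absurd (Finset.mem_univ k) hk, fun Q hQ hc hQ' => ?_⟩
  · exact fun y _ _ => rfl
  · rcases hcov Q hQ hc with ⟨k, hk⟩ | h1
    · exact absurd hk (hQ' k)
    · exact fun y hy hyH => (h1 y hy hyH).symm

end Pool.Agent.GJ
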