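import Pool.Agent.GJ.D.Plc
import Pool.Agent.GJ.N.Glue
import Pool.Agent.GJ.N.Four
import Pool.Agent.GJ.N.Reps

/-!
# GJ/D-MemC: existence of good characters

Characters with given values at representatives of the classes of places (`glue`, `exists_reps`); at
equivalent places characters agree together, and are nontrivial together.
-/

namespace Pool.Agent.GJ

open MulAction Pool.Agent.H73.DU Pool.Agent.H73.AL Pool.Agent.LD Pool.Agent.TS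

private theorem MemC_glue {V T : Finset ℕ} (hTp : ∀ p ∈ T, p.Prime) (h2 : 2 ∈ T)
    {H : Subgroup GQ} (hH : IsOpen (H : Set GQ)) (F : Pl → Prop) {J : Type}
    (X : J → Pl → GQ → ℤˣ) (hX : ∀ j Q, Pin V T Q → F Q → IsChr H (X j Q)) :
    ∃ ω : J → GQ → ℤˣ, (∀ j, IsChr H (ω j) ∧ TTr T H (ω j) ∧
      (∀ c : GQ, IsCc c → c ∈ H → ω j c = 1)) ∧ ∀ Q : Pl, Pin V T Q → F Q →
        ∃ R : Pl, Pin V T R ∧ F R ∧ PEq H R Q ∧ ∀ j, EqAt H Q (ω j) (X j R) := by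
  obtain ⟨ι, hι, P, hP, hne, hrep⟩ := exists_reps V T hH F
  have h1 := fun j => glue hTp h2 hH P (fun k => (hP k).1) hne (fun k => X j (P k))
    (fun k => hX j (P k) (hP k).1 (hP k).2)
  choose ω hω using h1
  refine ⟨ω, fun j => ⟨(hω j).1, (hω j).2.1, (hω j).2.2.1⟩, fun Q hQ hF => ?_⟩
  obtain ⟨k, hk⟩ := hrep Q hQ hF
  exact ⟨P k, (hP k).1, (hP k).2, hk, fun j => (eqAt_congr hk (hω j).1.1
    (hX j (P k) (hP k).1 (hP k).2).1).1 ((hω j).2.2.2 k)⟩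

/-- one place with a given value, and the places satisfying `F`, not equivalent to it -/
private theorem MemC_opt {V T : Finset ℕ} (hTp : ∀ p ∈ T, p.Prime) (h2 : 2 ∈ T)
    {H : Subgroup GQ} (hH : IsOpen (H : Set GQ)) (F : Pl → Prop) {P : Pl} (hP : Pin V T P)
    {J : Type} (α : J → GQ → ℤˣ) (hα : ∀ j, IsChr H (α j))
    (X : J → Pl → GQ → ℤˣ) (hX : ∀ j Q, Pin V T Q → F Q → ¬ PEq H P Q → IsChr H (X j Q)) :
    ∃ ω : J → GQ → ℤˣ, (∀ j, IsChr H (ω j) ∧ TTr T H (ω j) ∧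
      (∀ c : GQ, IsCc c → c ∈ H → ω j c = 1) ∧ EqAt H P (ω j) (α j)) ∧
      ∀ Q : Pl, Pin V T Q → F Q → ¬ PEq H P Q →
        ∃ R : Pl, Pin V T R ∧ F R ∧ ¬ PEq H P R ∧ PEq H R Q ∧ ∀ j, EqAt H Q (ω j) (X j R) := by
  obtain ⟨ι, hι, S, hS, hne, hrep⟩ := exists_reps V T hH (fun Q => F Q ∧ ¬ PEq H P Q)
  have h1 := fun j => glue hTp h2 hH (ι := Option ι) (fun k => k.elim P S)
    (by
      rintro (_ | k)
      · exact hP
      · exact (hS k).1)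
    (by
      rintro (_ | k) (_ | l) hkl
      · exact absurd rfl hkl
      · exact (hS l).2.2
      · exact fun h => (hS k).2.2 h.symm
      · exact hne k l fun h => hkl (by rw [h]))
    (fun k => k.elim (α j) fun k => X j (S k))
    (by
      rintro (_ | k)
      · exact hα j
      · exact hX j (S k) (hS k).1 (hS k).2.1 (hS k).2.2)
  choose ω hω using h1
  refine ⟨ω, fun j => ⟨(hω j).1, (hω j).2.1, (hω j).2.2.1, (hω j).2.2.2 none⟩,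
    fun Q hQ hF hPQ => ?_⟩
  obtain ⟨k, hk⟩ := hrep Q hQ ⟨hF, hPQ⟩
  exact ⟨S k, (hS k).1, (hS k).2.1, (hS k).2.2, hk, fun j => (eqAt_congr hk (hω j).1.1
    (hX j (S k) (hS k).1 (hS k).2.1 (hS k).2.2).1).1 ((hω j).2.2.2 (some k))⟩

theorem glue_all {V T : Finset ℕ} (hTp : ∀ p ∈ T, p.Prime) (h2 : 2 ∈ T) {H : Subgroup GQ}
    (hH : IsOpen (H : Set GQ)) (F : Pl → Prop) (X : Pl → GQ → ℤˣ)
    (hX : ∀ Q, Pin V T Q → F Q → IsChr H (X Q)) : ∃ ω : GQ → ℤˣ, IsChr H ω ∧ TTr T H ω ∧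
      (∀ c : GQ, IsCc c → c ∈ H → ω c = 1) ∧ ∀ Q : Pl, Pin V T Q → F Q →
        ∃ R : Pl, Pin V T R ∧ F R ∧ PEq H R Q ∧ EqAt H Q ω (X R) := by
  obtain ⟨ω, hω, h⟩ := MemC_glue (V := V) (T := T) (J := Unit) hTp h2 hH F (fun _ => X)
    (fun _ => hX)
  refine ⟨ω (), (hω ()).1, (hω ()).2.1, (hω ()).2.2, fun Q hQ hF => ?_⟩
  obtain ⟨R, h3, h4, h5, h6⟩ := h Q hQ hF
  exact ⟨R, h3, h4, h5, h6 ()⟩

/-- pairs with prescribed values exist; very good, trivial on the complex conjugations -/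
theorem exists_pair {V T : Finset ℕ} (hTp : ∀ p ∈ T, p.Prime) (h2 : 2 ∈ T) {i : ℕ}
    {H : Subgroup GQ} (hH : Ci V T i H) {P : Pl} (hP : Pin V T P) {χ χ' : GQ → ℤˣ}
    (hχ : IsChr H χ) (hχ' : IsChr H χ') (h1 : NtAt H P χ) (h3 : NtAt H P χ') :
    ∃ η η' : GQ → ℤˣ, Pair V T i H P η η' ∧ EqAt H P η χ ∧ EqAt H P η' χ' ∧ VGood V T H η ∧
      VGood V T H η' ∧ (∀ c : GQ, IsCc c → c ∈ H → η c = 1) ∧
      ∀ c : GQ, IsCc c → c ∈ H → η' c = 1 := by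
  classical
  have h4 : ∀ Q : Pl, ∃ u : GQ → ℤˣ, Pin V T Q → IsChr H u ∧ NtAt H Q u := by
    intro Q
    by_cases hQ : Pin V T Q
    · obtain ⟨u, π, h5, -, h6, -⟩ := four h2 hH.op hQ
      exact ⟨u, fun _ => ⟨h5, h6⟩⟩
    · exact ⟨1, fun h => absurd h hQ⟩
  choose u hu using h4
  obtain ⟨ω, hω, h⟩ := MemC_opt (V := V) (T := T) (J := Bool) hTp h2 hH.op (fun _ => True) hP
    (fun j => if j then χ else χ')
    (by
      rintro (_ | _)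
      · exact hχ'
      · exact hχ) (fun _ => u) (fun _ Q hQ _ _ => (hu Q hQ).1)
  have hl := hω true
  have hr := hω false
  have hv : ∀ (j : Bool) (θ : GQ → ℤˣ), IsChr H θ → NtAt H P θ → EqAt H P (ω j) θ →
      VGood V T H (ω j) := by
    intro j θ _ hθ' he Q hQ
    by_cases hPQ : PEq H P Q
    · exact (ntAt_congr hPQ (hω j).1.1).1 (he.symm.nt hθ')
    · obtain ⟨R, h5, -, -, h6, h7⟩ := h Q hQ trivial hPQ
      exact (h7 j).symm.nt ((ntAt_congr h6 (hu R h5).1.1).1 (hu R h5).2)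
  have hvl := hv true χ hχ h1 hl.2.2.2
  have hvr := hv false χ' hχ' h3 hr.2.2.2
  refine ⟨ω true, ω false, ⟨⟨hl.1, hl.2.1, fun Q hQ _ => hvl Q hQ⟩,
    ⟨hr.1, hr.2.1, fun Q hQ _ => hvr Q hQ⟩, fun Q hQ _ hPQ => ?_⟩, hl.2.2.2, hr.2.2.2, hvl, hvr,
    hl.2.2.1, hr.2.2.1⟩
  obtain ⟨R, -, -, -, -, h7⟩ := h Q hQ trivial hPQ
  exact (h7 true).trans (h7 false).symm

/-- very good `T`-trivial characters exist, trivial on the complex conjugations -/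
theorem exists_good {V T : Finset ℕ} (hTp : ∀ p ∈ T, p.Prime) (h2 : 2 ∈ T) {i : ℕ}
    {H : Subgroup GQ} (hH : Ci V T i H) : ∃ a b : GQ → ℤˣ, GT V T i H a ∧ GT V T i H b ∧
      GT V T i H (a * b) ∧ VGood V T H a ∧ VGood V T H b ∧ VGood V T H (a * b) ∧
      (∀ c : GQ, IsCc c → c ∈ H → a c = 1) ∧ ∀ c : GQ, IsCc c → c ∈ H → b c = 1 := by
  classical
  have h4 : ∀ Q : Pl, ∃ X : Bool → GQ → ℤˣ, Pin V T Q → (∀ j, IsChr H (X j)) ∧
      (∀ j, NtAt H Q (X j)) ∧ NtAt H Q (X true * X false) := by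
    intro Q
    by_cases hQ : Pin V T Q
    · obtain ⟨u, π, h5, h6, h7, h8, h9, -⟩ := four h2 hH.op hQ
      refine ⟨fun j => if j then u else π, fun _ => ⟨?_, ?_, h9⟩⟩
      · rintro (_ | _)
        · exact h6
        · exact h5
      · rintro (_ | _)
        · exact h8
        · exact h7
    · exact ⟨fun _ => 1, fun h => absurd h hQ⟩
  choose X hX using h4
  obtain ⟨ω, hω, h⟩ := MemC_glue (V := V) (T := T) (J := Bool) hTp h2 hH.op (fun _ => True)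
    (fun j Q => X Q j) (fun j Q hQ _ => (hX Q hQ).1 j)
  have hl := hω true
  have hr := hω false
  have hv : ∀ j, VGood V T H (ω j) := by
    intro j Q hQ
    obtain ⟨R, h5, -, h6, h7⟩ := h Q hQ trivial
    exact (h7 j).symm.nt ((ntAt_congr h6 ((hX R h5).1 j).1).1 ((hX R h5).2.1 j))
  have hvm : VGood V T H (ω true * ω false) := by
    intro Q hQ
    obtain ⟨R, h5, -, h6, h7⟩ := h Q hQ trivial
    exact ((h7 true).mul (h7 false)).symm.nt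
      ((ntAt_congr h6 (((hX R h5).1 true).mul ((hX R h5).1 false)).1).1 (hX R h5).2.2)
  refine ⟨ω true, ω false, ⟨hl.1, hl.2.1, fun Q hQ _ => hv true Q hQ⟩,
    ⟨hr.1, hr.2.1, fun Q hQ _ => hv false Q hQ⟩,
    ⟨hl.1.mul hr.1, fun Q hQ x hx hxH => ?_, fun Q hQ _ => hvm Q hQ⟩, hv true, hv false, hvm,
    hl.2.2, hr.2.2⟩
  rw [Pi.mul_apply, hl.2.1 Q hQ x hx hxH, hr.2.1 Q hQ x hx hxH, mul_one]

/-- change a character at one place -/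
theorem exists_mod {V T : Finset ℕ} (hTp : ∀ p ∈ T, p.Prime) (h2 : 2 ∈ T) {i : ℕ}
    {H : Subgroup GQ} (hH : Ci V T i H) {P : Pl} (hP : Pin V T P) {α β : GQ → ℤˣ}
    (hα : IsChr H α) (hβ : IsChr H β) (h1 : Crit i H P → NtAt H P α)
    (h3 : ∀ Q : Pl, Pin V T Q → Crit i H Q → ¬ PEq H P Q → NtAt H Q β) :
    ∃ ω : GQ → ℤˣ, GT V T i H ω ∧ EqAt H P ω α ∧
      ∀ Q : Pl, Pin V T Q → Crit i H Q → ¬ PEq H P Q → EqAt H Q ω β := by
  obtain ⟨ω, hω, h⟩ := MemC_opt (V := V) (T := T) (J := Unit) hTp h2 hH.op (Crit i H) hP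
    (fun _ => α) (fun _ => hα) (fun _ _ => β) (fun _ _ _ _ _ => hβ)
  have hb : ∀ Q : Pl, Pin V T Q → Crit i H Q → ¬ PEq H P Q → EqAt H Q (ω ()) β := by
    intro Q hQ hc hPQ
    obtain ⟨R, -, -, -, -, h7⟩ := h Q hQ hc hPQ
    exact h7 ()
  obtain ⟨hc1, hc2, -, hc4⟩ := hω ()
  refine ⟨ω (), ⟨hc1, hc2, fun Q hQ hc => ?_⟩, hc4, hb⟩
  by_cases hPQ : PEq H P Q
  · exact (ntAt_congr hPQ hc1.1).1 (hc4.symm.nt (h1 ((crit_congr hPQ).2 hc)))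
  · exact (hb Q hQ hc hPQ).symm.nt (h3 Q hQ hc hPQ)

/-- a third nontrivial class at all critical places -/
theorem exists_third {V T : Finset ℕ} (hTp : ∀ p ∈ T, p.Prime) (h2 : 2 ∈ T) {i : ℕ}
    {H : Subgroup GQ} (hH : Ci V T i H) {χ η : GQ → ℤˣ} (hχ : IsChr H χ) (hη : IsChr H η) :
    ∃ m : GQ → ℤˣ, GT V T i H m ∧ ∀ Q : Pl, Pin V T Q → Crit i H Q →
      NtAt H Q (m * χ) ∧ NtAt H Q (m * η) := by
  classical
  have h4 : ∀ Q : Pl, ∃ θ : GQ → ℤˣ, Pin V T Q → IsChr H θ ∧ NtAt H Q θ ∧ NtAt H Q (θ * χ) ∧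
      NtAt H Q (θ * η) := by
    intro Q
    by_cases hQ : Pin V T Q
    · obtain ⟨θ, h5⟩ := third h2 hH.op hQ hχ hη
      exact ⟨θ, fun _ => h5⟩
    · exact ⟨1, fun h => absurd h hQ⟩
  choose θ hθ using h4
  obtain ⟨m, hm1, hm2, -, h⟩ := glue_all (V := V) (T := T) hTp h2 hH.op (Crit i H) θ
    (fun Q hQ _ => (hθ Q hQ).1)
  have hmul : ∀ (Q : Pl) (ζ : GQ → ℤˣ), IsChr H ζ → Pin V T Q → Crit i H Q →
      (∀ R, Pin V T R → NtAt H R (θ R * ζ)) → NtAt H Q (m * ζ) := by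
    intro Q ζ hζ hQ hc h5
    obtain ⟨R, h6, -, h7, h8⟩ := h Q hQ hc
    have h9 : EqAt H Q (m * ζ) (θ R * ζ) := h8.mul fun _ _ _ => rfl
    exact h9.symm.nt ((ntAt_congr h7 ((hθ R h6).1.mul hζ).1).1 (h5 R h6))
  refine ⟨m, ⟨hm1, hm2, fun Q hQ hc => ?_⟩, fun Q hQ hc =>
    ⟨hmul Q χ hχ hQ hc fun R hR => (hθ R hR).2.2.1,
      hmul Q η hη hQ hc fun R hR => (hθ R hR).2.2.2⟩⟩
  obtain ⟨R, h6, -, h7, h8⟩ := h Q hQ hc
  exact h8.symm.nt ((ntAt_congr h7 (hθ R h6).1.1).1 (hθ R h6).2.1)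

end Pool.Agent.GJ
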