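import Pool.Agent.GJ.Bas

/-!
# GJ/D-Plc: places of a subgroup of index two

The places of a subgroup `H'` of index two of `H`: a place of `H` that is nonsplit in `H'` is not
critical for `H'`; over a split place there are two places, conjugate by an element of `H` outside
`H'`. Conjugate characters.
-/

namespace Pool.Agent.GJ

open MulAction Pool.Agent.H73.DU Pool.Agent.H73.AL Pool.Agent.LD Pool.Agent.TS

variable {V T : Finset ℕ} {i : ℕ} {H H' : Subgroup GQ} {τ : GQ} {P Q : Pl}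

private theorem Plc_memD {P : Pl} {x : GQ} :
    x ∈ P.D ↔ P.g⁻¹ * x * P.g ∈ decomp ℚ_[P.p] (emb P.p) := by
  unfold Pl.D
  rw [mem_cj_iff]
  constructor
  · rintro ⟨u, hu, rfl⟩
    have h1 : P.g⁻¹ * (P.g⁻¹⁻¹ * u * P.g⁻¹) * P.g = u := by group
    rw [h1]
    exact hu
  · intro h
    exact ⟨_, h, by group⟩

/-- products in a subgroup of index two -/
private theorem Plc_two {G : Type} [Group G] {H H' : Subgroup G} (hi : H'.relIndex H = 2) {a b : G}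
    (ha : a ∈ H) (hb : b ∈ H) : a * b ∈ H' ↔ (a ∈ H' ↔ b ∈ H') := by
  have h1 : (H'.subgroupOf H).index = 2 := hi
  have h2 := Subgroup.mul_mem_iff_of_index_two h1 (a := ⟨a, ha⟩) (b := ⟨b, hb⟩)
  rw [Subgroup.mem_subgroupOf, Subgroup.mem_subgroupOf, Subgroup.mem_subgroupOf] at h2
  exact h2

/-- a subgroup of index two is normal -/
private theorem Plc_normal {G : Type} [Group G] {H H' : Subgroup G} (hle : H' ≤ H)
    (hi : H'.relIndex H = 2) {a x : G} (ha : a ∈ H) (hx : x ∈ H') : a⁻¹ * x * a ∈ H' := by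
  rw [Plc_two hi (H.mul_mem (H.inv_mem ha) (hle hx)) ha, Plc_two hi (H.inv_mem ha) (hle hx),
    H'.inv_mem_iff]
  exact ⟨fun h => h.2 hx, fun h => ⟨fun _ => hx, fun _ => h⟩⟩

open Classical in
/-- the character of `H` with kernel `H'` -/
private noncomputable def Plc_ch {G : Type} [Group G] (H' : Subgroup G) : G → ℤˣ :=
  fun g => if g ∈ H' then 1 else -1

private theorem Plc_ch_one {G : Type} [Group G] {H' : Subgroup G} {g : G} :
    Plc_ch H' g = 1 ↔ g ∈ H' := by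
  unfold Plc_ch
  constructor
  · intro h
    by_contra h1
    rw [if_neg h1] at h
    exact absurd h (by decide)
  · intro h
    rw [if_pos h]

private theorem Plc_ch_mul {G : Type} [Group G] {H H' : Subgroup G} (hi : H'.relIndex H = 2) :
    Mulp H (Plc_ch H') := by
  classical
  intro a ha b hb
  have h1 := Plc_two hi ha hb
  unfold Plc_ch
  by_cases h2 : a ∈ H' <;> by_cases h3 : b ∈ H'
  · rw [if_pos h2, if_pos h3, if_pos (h1.2 ⟨fun _ => h3, fun _ => h2⟩), one_mul]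
  · rw [if_pos h2, if_neg h3, if_neg fun h => h3 ((h1.1 h).1 h2), one_mul]
  · rw [if_neg h2, if_pos h3, if_neg fun h => h2 ((h1.1 h).2 h3), mul_one]
  · rw [if_neg h2, if_neg h3, if_pos (h1.2 ⟨fun h => absurd h h2, fun h => absurd h h3⟩)]
    decide

theorem mem_mv {h x : GQ} : x ∈ (P.mv h).D ↔ h⁻¹ * x * h ∈ P.D := by
  rw [Plc_memD, Plc_memD]
  have h1 : (P.mv h).g⁻¹ * x * (P.mv h).g = P.g⁻¹ * (h⁻¹ * x * h) * P.g := by
    change (h * P.g)⁻¹ * x * (h * P.g) = _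
    group
  rw [h1]
  rfl

theorem pin_mv {h : GQ} : Pin V T (P.mv h) ↔ Pin V T P := Iff.rfl

theorem pinT_mv {h : GQ} : PinT T (P.mv h) ↔ PinT T P := Iff.rfl

theorem peq_mv {h : GQ} (hh : h ∈ H) : PEq H P (P.mv h) := by
  refine ⟨rfl, h, hh, 1, Subgroup.one_mem _, ?_⟩
  rw [mul_one]
  rfl

theorem peq_mono (hle : H' ≤ H) (h : PEq H' P Q) : PEq H P Q := by
  obtain ⟨h1, a, ha, h2⟩ := h
  exact ⟨h1, a, hle ha, h2⟩

/-- the conjugate of a split place -/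
theorem not_peq_mv (hle : H' ≤ H) (hτ : τ ∈ H) (hτ' : τ ∉ H') (hs : P.D ⊓ H ≤ H') :
    ¬ PEq H' P (P.mv τ) := by
  rintro ⟨-, a, ha, d, hd, h1⟩
  have h2 : τ * P.g = a * P.g * d := h1
  have h3 : P.g⁻¹ * (a⁻¹ * τ) * P.g = d := by
    have h4 : P.g⁻¹ * (a⁻¹ * τ) * P.g = P.g⁻¹ * a⁻¹ * (τ * P.g) := by group
    rw [h4, h2]
    group
  have h5 : a⁻¹ * τ ∈ P.D ⊓ H := by
    refine ⟨Plc_memD.2 ?_, H.mul_mem (H.inv_mem (hle ha)) hτ⟩
    rw [h3]
    exact hd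
  apply hτ'
  have h6 := H'.mul_mem ha (hs h5)
  rwa [mul_inv_cancel_left] at h6

theorem peq_cases (hle : H' ≤ H) (hi : H'.relIndex H = 2) (hτ : τ ∈ H) (hτ' : τ ∉ H')
    (h : PEq H P Q) : PEq H' P Q ∨ PEq H' (P.mv τ) Q := by
  obtain ⟨h1, a, ha, d, hd, h2⟩ := h
  by_cases h3 : a ∈ H'
  · exact Or.inl ⟨h1, a, h3, d, hd, h2⟩
  · refine Or.inr ⟨h1, a * τ⁻¹, ?_, d, hd, ?_⟩
    · rw [Plc_two hi ha (H.inv_mem hτ), H'.inv_mem_iff]
      exact ⟨fun h => absurd h h3, fun h => absurd h hτ'⟩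
    · rw [h2]
      change a * P.g * d = a * τ⁻¹ * (τ * P.g) * d
      group

/-- a nonsplit place is not critical for `H'` -/
theorem crit_nonsplit (hH : Ci V T i H) (hH' : IsOpen (H' : Set GQ)) (hle : H' ≤ H)
    (hi : H'.relIndex H = 2) (hP : Pin V T P) (hns : ¬ P.D ⊓ H ≤ H') : ¬ Crit i H' P := by
  have h1 : Mulp (H ⊓ P.D) (Plc_ch H') := (Plc_ch_mul hi).mono inf_le_left
  have h2 : ¬ Tr (H ⊓ P.D) (Plc_ch H') := by
    intro h3
    apply hns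
    intro g hg
    exact Plc_ch_one.1 (h3 g ⟨hg.2, hg.1⟩)
  have h3 := kr_index h1 h2
  have h4 : kr (H ⊓ P.D) (Plc_ch H') = H' ⊓ P.D := by
    ext g
    rw [mem_kr h1, Plc_ch_one, Subgroup.mem_inf, Subgroup.mem_inf]
    exact ⟨fun h => ⟨h.2, h.1.2⟩, fun h => ⟨⟨hle h.1, h.2⟩, h.1⟩⟩
  rw [h4] at h3
  have h5 := Subgroup.relIndex_mul_relIndex (H' ⊓ P.D) (H ⊓ P.D) P.D
    (inf_le_inf_right _ hle) inf_le_right
  rw [h3, Subgroup.inf_relIndex_right, Subgroup.inf_relIndex_right] at h5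
  unfold Crit
  rw [not_not, ← h5, pow_succ, mul_comm]
  exact Nat.mul_dvd_mul_left 2 (hH.2 P hP)

theorem crit_split (hle : H' ≤ H) (hs : P.D ⊓ H ≤ H') : Crit i H' P ↔ Crit i H P := by
  have h1 : H' ⊓ P.D = H ⊓ P.D :=
    le_antisymm (inf_le_inf_right _ hle) (le_inf (by rw [inf_comm]; exact hs) inf_le_right)
  unfold Crit
  rw [← Subgroup.inf_relIndex_right H' P.D, h1, Subgroup.inf_relIndex_right]

/-- the conjugate character of the normal subgroup `H'` -/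
theorem cx_chr (hle : H' ≤ H) (hi : H'.relIndex H = 2) (hτ : τ ∈ H) {θ : GQ → ℤˣ}
    (hθ : IsChr H' θ) : IsChr H' (cx τ θ) := by
  have h1 : ∀ x : GQ, x ∈ H' → τ⁻¹ * x * τ ∈ H' := fun x hx => Plc_normal hle hi hτ hx
  have h2 : ∀ x : GQ, τ⁻¹ * x * τ ∈ H' → x ∈ H' := by
    intro x hx
    have h3 := Plc_normal hle hi (H.inv_mem hτ) hx
    have h4 : τ⁻¹⁻¹ * (τ⁻¹ * x * τ) * τ⁻¹ = x := by group
    rwa [h4] at h3
  have h5 : Mulp H' (cx τ θ) := by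
    intro a ha b hb
    unfold cx
    have h6 : τ⁻¹ * (a * b) * τ = (τ⁻¹ * a * τ) * (τ⁻¹ * b * τ) := by group
    rw [h6]
    exact hθ.1 _ (h1 a ha) _ (h1 b hb)
  refine ⟨h5, ?_⟩
  have h7 : (kr H' (cx τ θ) : Set GQ) = (fun x : GQ => τ⁻¹ * x * τ) ⁻¹' (kr H' θ : Set GQ) := by
    ext x
    rw [Set.mem_preimage, SetLike.mem_coe, SetLike.mem_coe, mem_kr h5, mem_kr hθ.1]
    exact ⟨fun h => ⟨h1 x h.1, h.2⟩, fun h => ⟨h2 x h.1, h.2⟩⟩
  rw [h7]
  exact hθ.2.preimage (by fun_prop)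

theorem cx_val (θ : GQ → ℤˣ) (h : GQ) : cx τ θ (τ * h * τ⁻¹) = θ h := by
  unfold cx
  congr 1
  group

theorem ntAt_cx (hle : H' ≤ H) (hi : H'.relIndex H = 2) (hτ : τ ∈ H) {θ : GQ → ℤˣ}
    (h : NtAt H' P θ) : NtAt H' (P.mv τ) (cx τ θ) := by
  obtain ⟨x, hx, hx', h1⟩ := h
  refine ⟨τ * x * τ⁻¹, mem_mv.2 ?_, ?_, ?_⟩
  · have h2 : τ⁻¹ * (τ * x * τ⁻¹) * τ = x := by group
    rw [h2]
    exact hx
  · have h3 := Plc_normal hle hi (H.inv_mem hτ) hx'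
    rwa [inv_inv] at h3
  · rw [cx_val]
    exact h1

theorem EqAt.symm {χ χ' : GQ → ℤˣ} (h : EqAt H P χ χ') : EqAt H P χ' χ :=
  fun x h1 h2 => (h x h1 h2).symm

theorem EqAt.trans {χ χ' χ'' : GQ → ℤˣ} (h : EqAt H P χ χ') (h' : EqAt H P χ' χ'') :
    EqAt H P χ χ'' := fun x h1 h2 => (h x h1 h2).trans (h' x h1 h2)

theorem EqAt.mul {χ χ' η η' : GQ → ℤˣ} (h : EqAt H P χ χ') (h' : EqAt H P η η') :
    EqAt H P (χ * η) (χ' * η') := by
  intro x h1 h2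
  rw [Pi.mul_apply, Pi.mul_apply, h x h1 h2, h' x h1 h2]

theorem EqAt.nt {χ χ' : GQ → ℤˣ} (h : EqAt H P χ χ') (hn : NtAt H P χ) : NtAt H P χ' := by
  obtain ⟨x, h1, h2, h3⟩ := hn
  exact ⟨x, h1, h2, by rw [← h x h1 h2]; exact h3⟩

theorem ntAt_iff {χ : GQ → ℤˣ} : NtAt H P χ ↔ ¬ EqAt H P χ 1 := by
  unfold NtAt EqAt
  push Not
  rfl

theorem mul_self_char (χ : GQ → ℤˣ) : χ * χ = 1 := by
  funext x
  exact Int.units_mul_self (χ x)

/-- `a * b` is nontrivial at `P` iff `a`, `b` are different there -/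
theorem ntAt_mul {a b : GQ → ℤˣ} : NtAt H P (a * b) ↔ ¬ EqAt H P a b := by
  rw [ntAt_iff, not_iff_not]
  constructor
  · intro h x h1 h2
    have h3 := h x h1 h2
    rw [Pi.mul_apply, Pi.one_apply] at h3
    rcases Int.units_eq_one_or (a x) with h4 | h4 <;> rcases Int.units_eq_one_or (b x) with h5 | h5 <;>
      simp_all
  · intro h x h1 h2
    rw [Pi.mul_apply, h x h1 h2, Pi.one_apply]
    exact Int.units_mul_self _

end Pool.Agent.GJ
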