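import Pool.Agent.GJ.R.V4
import Pool.Agent.GJ.N.Glue
import Pool.Agent.GJ.N.Four

/-!
# GJ/D-MemA: elements of `ES V T (i + 1) n B`

Subgroups of index `2` in a group of level `i`, and (paper D) the double of a group of level `i + 1` through the
relation of a biquadratic extension given by two `T`-trivial characters that are independent at a place over `V`.
-/

namespace Pool.Agent.GJ

open MulAction Pool.Agent.H73.DU Pool.Agent.H73.AL Pool.Agent.LD Pool.Agent.TS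

theorem quad_mem {V T : Finset ℕ} {i n B : ℕ} {K L : Subgroup GQ} (hK : Ci V T i K) (hL : IsOpen (L : Set GQ))
    (hLK : L ≤ K) (hi : L.relIndex K = 2) (hn : n ∣ L.index) (hB : L.index ≤ B) :
    pc L ∈ ES V T i n B :=
  mem_Ex ⟨hK.mono hLK hL, Or.inr (Or.inr ⟨K, hK, hLK, hi⟩)⟩ hn hB

private theorem MemA_nontriv {K : Subgroup GQ} {a b : GQ → ℤˣ} (ha : Mulp K a) (hb : Mulp K b)
    (hb1 : ¬ Tr K b) (hab : ¬ Tr K (a * b)) : ¬ Tr (kr K a) b := by
  intro h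
  have h0 : ∀ g ∈ K, a g = 1 → b g = 1 := fun g hg hg1 => h g ((mem_kr ha).2 ⟨hg, hg1⟩)
  unfold Tr at hb1
  push Not at hb1
  obtain ⟨k, hk, hk1⟩ := hb1
  have hak : a k ≠ 1 := fun h1 => hk1 (h0 k hk h1)
  apply hab
  intro g hg
  rw [Pi.mul_apply]
  rcases Int.units_eq_one_or (a g) with h1 | h1
  · rw [h1, h0 g hg h1, one_mul]
  · have h2 : a (g * k) = 1 := by
      rw [ha g hg k hk, h1, units_ne hak]
      rfl
    have h3 := h0 _ (K.mul_mem hg hk) h2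
    rw [hb g hg k hk, units_ne hk1] at h3
    rw [h1]
    rcases Int.units_eq_one_or (b g) with h4 | h4
    · rw [h4, one_mul] at h3
      exact absurd h3 (by decide)
    · rw [h4]
      rfl

/-- the intersection of the kernels of two different nontrivial characters -/
theorem kr_inf_index {K : Subgroup GQ} {a b : GQ → ℤˣ} (ha : Mulp K a) (hb : Mulp K b)
    (ha1 : ¬ Tr K a) (hb1 : ¬ Tr K b) (hab : ¬ Tr K (a * b)) :
    (kr K a ⊓ kr K b).relIndex (kr K a) = 2 ∧ (kr K a ⊓ kr K b).index = 4 * K.index := by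
  have h1 : ¬ Tr (kr K a) b := MemA_nontriv ha hb hb1 hab
  have h2 : Mulp (kr K a) b := hb.mono (kr_le K a)
  rw [← kr_mono hb (kr_le K a)]
  refine ⟨kr_index h2 h1, ?_⟩
  rw [kr_index' h2 h1, kr_index' ha ha1]
  ring

private theorem MemA_ne {K : Subgroup GQ} {P : Pl} {u a : GQ → ℤˣ} (h : NtAt K P u)
    (he : EqAt K P a u) : ¬ Tr K a := by
  obtain ⟨g, hg, hgK, hg1⟩ := h
  intro ht
  apply hg1
  rw [← he g hg hgK]
  exact ht g hgK

theorem two_pc {V T : Finset ℕ} (hTp : ∀ p ∈ T, p.Prime) (h2 : 2 ∈ T) {i n B : ℕ}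
    (hV : ∃ P : Pl, Pin V T P) {K : Subgroup GQ} (hK : Ci V T (i + 1) K) (hn : n ∣ 2 * K.index)
    (hB : 4 * K.index ≤ B) : (2 : ℤ) • pc K ∈ ES V T (i + 1) n B := by
  obtain ⟨P, hP⟩ := hV
  obtain ⟨u, π, hu, hπ, hu1, hπ1, huπ, -⟩ := four h2 hK.op hP
  have hg : ∀ χ : GQ → ℤˣ, IsChr K χ → ∃ ω : GQ → ℤˣ, IsChr K ω ∧ TTr T K ω ∧ EqAt K P ω χ := by
    intro χ hχ
    obtain ⟨ω, h3, h4, -, h5⟩ := glue hTp h2 hK.op (ι := Unit) (fun _ => P) (fun _ => hP)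
      (fun k l hkl => absurd (Subsingleton.elim k l) hkl) (fun _ => χ) (fun _ => hχ)
    exact ⟨ω, h3, h4, h5 ()⟩
  obtain ⟨a, ha, hat, hau⟩ := hg u hu
  obtain ⟨b, hb, hbt, hbπ⟩ := hg π hπ
  have ha1 : ¬ Tr K a := MemA_ne hu1 hau
  have hb1 : ¬ Tr K b := MemA_ne hπ1 hbπ
  have hab : ¬ Tr K (a * b) := by
    refine MemA_ne huπ fun g hg hgK => ?_
    rw [Pi.mul_apply, Pi.mul_apply, hau g hg hgK, hbπ g hg hgK]
  have hinf := kr_inf_index ha.1 hb.1 ha1 hb1 hab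
  have hB2 : 2 * K.index ≤ B := le_trans (Nat.mul_le_mul_right _ (by norm_num)) hB
  have key : ∀ χ : GQ → ℤˣ, IsChr K χ → ¬ Tr K χ → pc (kr K χ) ∈ ES V T (i + 1) n B := by
    intro χ hχ hχ1
    refine quad_mem hK hχ.2 (kr_le K χ) (kr_index hχ.1 hχ1) ?_ ?_
    · rw [kr_index' hχ.1 hχ1]
      exact hn
    · rw [kr_index' hχ.1 hχ1]
      exact hB2
  have hlast : pc (kr K a ⊓ kr K b) ∈ ES V T (i + 1) n B := by
    refine quad_mem (hK.mono (kr_le K a) ha.2) ?_ inf_le_left hinf.1 ?_ ?_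
    · rw [Subgroup.coe_inf]
      exact ha.2.inter hb.2
    · rw [hinf.2]
      exact hn.trans ⟨2, by ring⟩
    · rw [hinf.2]
      exact hB
  refine mem_congr (g := pc (kr K a) + pc (kr K b) + pc (kr K (a * b)) - pc (kr K a ⊓ kr K b))
    (fun U hU => ?_) ?_
  · have h3 := v4 hK.op ha hb ha1 hb1 hab hat hbt U hU
    rw [Pi.smul_apply, Pi.sub_apply, Pi.add_apply, Pi.add_apply, h3, smul_eq_mul, add_sub_cancel_right]
  · exact AddSubgroup.sub_mem _ (AddSubgroup.add_mem _ (AddSubgroup.add_mem _ (key a ha ha1)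
      (key b hb hb1)) (key (a * b) (ha.mul hb) hab)) hlast

theorem pq_mem {V T : Finset ℕ} (hTp : ∀ p ∈ T, p.Prime) (h2 : 2 ∈ T) {i n B : ℕ}
    (hV : ∃ P : Pl, Pin V T P) {K : Subgroup GQ} (hK : Ci V T (i + 1) K) {χ : GQ → ℤˣ}
    (hχ : IsChr K χ) (hn : n ∣ 2 * K.index)
    (hB : 4 * K.index ≤ B) : pq K χ ∈ ES V T (i + 1) n B := by
  classical
  unfold pq
  split_ifs with h
  · exact two_pc hTp h2 hV hK hn hB
  · refine quad_mem hK hχ.2 (kr_le K χ) (kr_index hχ.1 h) ?_ ?_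
    · rw [kr_index' hχ.1 h]
      exact hn
    · rw [kr_index' hχ.1 h]
      exact le_trans (Nat.mul_le_mul_right _ (by norm_num)) hB

end Pool.Agent.GJ
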